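import Pool.Agent.W2helper31.GP.Stm3

/-! Project GP, piece IND. -/

set_option autoImplicit false

open MeasureTheory ProbabilityTheory Set
open scoped ENNReal NNReal

namespace Pool.Agent.W2helper19.GP

open Pool.Agent.W2helper31.GP

/-- the square of the norm -/
def Q {r : ℕ} (x : Fin r → ℝ) : ℝ := ∑ j, x j ^ 2

lemma Q_nonneg {r : ℕ} (x : Fin r → ℝ) : 0 ≤ Q x := Finset.sum_nonneg fun _ _ => sq_nonneg _

lemma Q_meas {r : ℕ} : Measurable (Q : (Fin r → ℝ) → ℝ) := by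
  unfold Q
  fun_prop

lemma Q_smul {r : ℕ} (t : ℝ) (ht : 0 < t) (x : Fin r → ℝ) : Q (Real.sqrt t • x) = t * Q x := by
  unfold Q
  rw [Finset.mul_sum]
  refine Finset.sum_congr rfl (fun j _ => ?_)
  rw [Pi.smul_apply, smul_eq_mul, mul_pow, Real.sq_sqrt ht.le]

lemma Q_pos {r : ℕ} (hr : 0 < r) : ∀ᵐ x ∂(Gam r), 0 < Q x := by
  have : NullSingletonClass (Gam r) := by
    unfold Gam
    have : NullSingletonClass (gaussianReal 0 1) := nullSingletonClass_gaussianReal one_ne_zero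
    exact Measure.pi_nullSingletonClass ⟨0, hr⟩
  have h0 : (Gam r) {0} = 0 := measure_singleton 0
  rw [ae_iff]
  refine measure_mono_null ?_ h0
  intro x hx
  rw [mem_ofPred_eq, not_lt] at hx
  have h1 : Q x = 0 := le_antisymm hx (Q_nonneg x)
  unfold Q at h1
  rw [Finset.sum_eq_zero_iff_of_nonneg (fun _ _ => sq_nonneg _)] at h1
  rw [mem_singleton_iff]
  funext j
  exact pow_eq_zero_iff (two_ne_zero) |>.mp (h1 j (Finset.mem_univ j))

lemma inner {M q : ℝ} (hM : 0 < M) (hq : 0 < q) :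
    ∫⁻ l in Ioi (0 : ℝ), ENNReal.ofReal (l ^ (M - 1)) * ENNReal.ofReal (Real.exp (-(q / 2 * l))) =
      ENNReal.ofReal (Real.Gamma M * 2 ^ M) * ENNReal.ofReal (q ^ (-M)) := by
  have h1 := Real.integral_rpow_mul_exp_neg_mul_Ioi hM (half_pos hq)
  have hG := Real.Gamma_pos_of_pos hM
  have h2 : (1 / (q / 2)) ^ M * Real.Gamma M = Real.Gamma M * 2 ^ M * q ^ (-M) := by
    rw [one_div_div, Real.div_rpow (by norm_num) hq.le, Real.rpow_neg hq.le]
    ring
  have h3 : 0 < Real.Gamma M * 2 ^ M * q ^ (-M) := by positivity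
  have hint : Integrable (fun t : ℝ => t ^ (M - 1) * Real.exp (-(q / 2 * t)))
      (volume.restrict (Ioi 0)) := by
    refine Integrable.of_integral_ne_zero ?_
    rw [h1, h2]
    exact h3.ne'
  rw [← ENNReal.ofReal_mul (by positivity), ← h2, ← h1,
    ofReal_integral_eq_lintegral_ofReal hint]
  · refine setLIntegral_congr_fun measurableSet_Ioi (fun l hl => ?_)
    rw [← ENNReal.ofReal_mul (Real.rpow_nonneg (le_of_lt hl) _)]
  · refine (ae_restrict_mem measurableSet_Ioi).mono (fun l hl => ?_)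
    exact mul_nonneg (Real.rpow_nonneg (le_of_lt hl) _) (Real.exp_pos _).le

lemma step1 (hS : P_SCAL) {r : ℕ} {M : ℝ} {F : (Fin r → ℝ) → ℝ≥0∞} (hF : Measurable F)
    (hh : ∀ (t : ℝ) (x : Fin r → ℝ), 0 < t → F (Real.sqrt t • x) = ENNReal.ofReal (t ^ M) * F x)
    {l : ℝ} (hl : 0 < l) :
    ∫⁻ x, F x * ENNReal.ofReal (Real.exp (-(Q x / 2 * l))) ∂(Gam r) =
      ENNReal.ofReal ((1 / (1 + l)) ^ ((r : ℝ) / 2) * (1 / (1 + l)) ^ M) * ∫⁻ x, F x ∂(Gam r) := by
  have ht : 0 < 1 / (1 + l) := by positivity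
  have h1 := hS r (1 / (1 + l)) ht F hF
  rw [lintegral_congr (fun x => hh _ x ht), lintegral_const_mul _ hF] at h1
  have e : ∀ x : Fin r → ℝ, F x * ENNReal.ofReal (Real.exp (-(Q x / 2 * l))) =
      ENNReal.ofReal ((1 / (1 + l)) ^ ((r : ℝ) / 2)) *
        (F x * ENNReal.ofReal ((1 / (1 + l)) ^ (-((r : ℝ) / 2)) *
        Real.exp ((1 - 1 / (1 / (1 + l))) / 2 * ∑ j, x j ^ 2))) := by
    intro x
    rw [mul_left_comm, ← ENNReal.ofReal_mul (by positivity), ← mul_assoc, ← Real.rpow_add ht,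
      add_neg_cancel, Real.rpow_zero, one_mul]
    congr 3
    show -(Q x / 2 * l) = (1 - 1 / (1 / (1 + l))) / 2 * Q x
    rw [one_div_one_div]
    ring
  rw [lintegral_congr e, lintegral_const_mul _ (by fun_prop), ← h1, ENNReal.ofReal_mul (by positivity),
    mul_assoc]

lemma core (hS : P_SCAL) {r : ℕ} (hr : 0 < r) {M : ℝ} (hM : 0 < M) {F : (Fin r → ℝ) → ℝ≥0∞}
    (hF : Measurable F)
    (hh : ∀ (t : ℝ) (x : Fin r → ℝ), 0 < t → F (Real.sqrt t • x) = ENNReal.ofReal (t ^ M) * F x) :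
    ENNReal.ofReal (Real.Gamma M * 2 ^ M) * ∫⁻ x, F x * ENNReal.ofReal (Q x ^ (-M)) ∂(Gam r) =
      (∫⁻ l in Ioi (0 : ℝ), ENNReal.ofReal (l ^ (M - 1)) *
        ENNReal.ofReal ((1 / (1 + l)) ^ ((r : ℝ) / 2) * (1 / (1 + l)) ^ M)) * ∫⁻ x, F x ∂(Gam r) := by
  have hQ := Q_meas (r := r)
  have hprob : IsProbabilityMeasure (Gam r) := by unfold Gam; infer_instance
  have hm1 : Measurable (fun x : Fin r → ℝ => F x * ENNReal.ofReal (Q x ^ (-M))) := by fun_prop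
  rw [← lintegral_const_mul _ hm1]
  have e1 : ∫⁻ x, ENNReal.ofReal (Real.Gamma M * 2 ^ M) * (F x * ENNReal.ofReal (Q x ^ (-M))) ∂(Gam r) =
      ∫⁻ x, (∫⁻ l in Ioi (0 : ℝ), F x * (ENNReal.ofReal (l ^ (M - 1)) *
        ENNReal.ofReal (Real.exp (-(Q x / 2 * l))))) ∂(Gam r) := by
    refine lintegral_congr_ae ((Q_pos hr).mono (fun x hx => ?_))
    show ENNReal.ofReal (Real.Gamma M * 2 ^ M) * (F x * ENNReal.ofReal (Q x ^ (-M))) =
      ∫⁻ l in Ioi (0 : ℝ), F x * (ENNReal.ofReal (l ^ (M - 1)) *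
        ENNReal.ofReal (Real.exp (-(Q x / 2 * l))))
    rw [lintegral_const_mul _ (by fun_prop), inner hM hx]
    ring
  rw [e1, lintegral_lintegral_swap (by
    apply Measurable.aemeasurable
    unfold Function.uncurry
    fun_prop)]
  rw [← lintegral_mul_const _ (by fun_prop)]
  refine setLIntegral_congr_fun measurableSet_Ioi (fun l hl => ?_)
  show ∫⁻ x, F x * (ENNReal.ofReal (l ^ (M - 1)) * ENNReal.ofReal (Real.exp (-(Q x / 2 * l)))) ∂(Gam r) =
    ENNReal.ofReal (l ^ (M - 1)) *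
        ENNReal.ofReal ((1 / (1 + l)) ^ ((r : ℝ) / 2) * (1 / (1 + l)) ^ M) * ∫⁻ x, F x ∂(Gam r)
  rw [mul_assoc, ← step1 hS hF hh hl, ← lintegral_const_mul _ (by fun_prop)]
  refine lintegral_congr (fun x => ?_)
  rw [mul_left_comm]

theorem p_IND : P_IND := by
  intro hS _ r M hr hM F hF hh
  have hQ := Q_meas (r := r)
  have hc1 := core hS hr hM hF hh
  have hc2 := core hS hr hM (F := fun x => ENNReal.ofReal (Q x ^ M)) (by fun_prop) (by
    intro t x ht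
    show ENNReal.ofReal (Q (Real.sqrt t • x) ^ M) = ENNReal.ofReal (t ^ M) * ENNReal.ofReal (Q x ^ M)
    rw [Q_smul t ht, Real.mul_rpow ht.le (Q_nonneg x), ENNReal.ofReal_mul (by positivity)])
  have e1 : ∫⁻ x, ENNReal.ofReal (Q x ^ M) * ENNReal.ofReal (Q x ^ (-M)) ∂(Gam r) = 1 := by
    have : IsProbabilityMeasure (Gam r) := by unfold Gam; infer_instance
    have h2 : ∫⁻ x, ENNReal.ofReal (Q x ^ M) * ENNReal.ofReal (Q x ^ (-M)) ∂(Gam r) =
        ∫⁻ _, 1 ∂(Gam r) := by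
      refine lintegral_congr_ae ((Q_pos hr).mono (fun x hx => ?_))
      show ENNReal.ofReal (Q x ^ M) * ENNReal.ofReal (Q x ^ (-M)) = 1
      rw [← ENNReal.ofReal_mul (by positivity), ← Real.rpow_add hx, add_neg_cancel, Real.rpow_zero,
        ENNReal.ofReal_one]
    rw [h2, lintegral_one, measure_univ]
  rw [e1, mul_one] at hc2
  have hA : 0 < Real.Gamma M * 2 ^ M := mul_pos (Real.Gamma_pos_of_pos hM) (by positivity)
  have hA0 : ENNReal.ofReal (Real.Gamma M * 2 ^ M) ≠ 0 := by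
    rw [Ne, ENNReal.ofReal_eq_zero, not_le]
    exact hA
  have key : ENNReal.ofReal (Real.Gamma M * 2 ^ M) * ∫⁻ x, F x ∂(Gam r) =
      ENNReal.ofReal (Real.Gamma M * 2 ^ M) * ((∫⁻ x, ENNReal.ofReal (Q x ^ M) ∂(Gam r)) *
        ∫⁻ x, F x * ENNReal.ofReal (Q x ^ (-M)) ∂(Gam r)) := by
    rw [mul_left_comm, hc1, hc2]
    ring
  exact (ENNReal.mul_right_inj hA0 ENNReal.ofReal_ne_top).mp key

end Pool.Agent.W2helper19.GP
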